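import Pool.Agent.P8H38.SB.Stm

set_option autoImplicit false

/-!
# Project SB (helper38), package KK: `∫_0^∞ (1 - cos x) / x² dx = π / 2`
-/

open Filter Topology MeasureTheory Set

namespace Pool.Agent.P8H88.SB

open Pool.Agent.P8H38.SB

theorem lint_of_deriv {F f : ℝ → ℝ} {a m : ℝ} (hF : ∀ x ∈ Ici a, HasDerivAt F (f x) x)
    (h0 : ∀ x ∈ Ioi a, 0 ≤ f x) (hm : Tendsto F atTop (𝓝 m)) :
    ∫⁻ x in Ioi a, ENNReal.ofReal (f x) = ENNReal.ofReal (m - F a) := by
  rw [← integral_Ioi_of_hasDerivAt_of_nonneg' hF h0 hm]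
  refine (ofReal_integral_eq_lintegral_ofReal (integrableOn_Ioi_deriv_of_nonneg' hF h0 hm) ?_).symm
  exact (ae_restrict_iff' measurableSet_Ioi).2 (ae_of_all _ h0)

theorem exp_tendsto {s : ℝ} (hs : 0 < s) :
    Tendsto (fun x : ℝ => Real.exp (-(x * s))) atTop (𝓝 0) := by
  apply Real.tendsto_exp_neg_atTop_nhds_zero.comp
  exact tendsto_id.atTop_mul_const hs

theorem kk : S_KK := by
  have hf0 : ∀ x : ℝ, 0 ≤ (1 - Real.cos x) / x ^ 2 := fun x =>
    div_nonneg (by linarith [Real.cos_le_one x]) (sq_nonneg x)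
  have hmeas : Measurable fun x : ℝ => (1 - Real.cos x) / x ^ 2 := by fun_prop
  have h1 : ∀ x : ℝ, 0 < x →
      ∫⁻ s in Ioi (0 : ℝ), ENNReal.ofReal ((1 - Real.cos x) * (s * Real.exp (-(x * s)))) =
        ENNReal.ofReal ((1 - Real.cos x) / x ^ 2) := by
    intro x hx
    have hc : 0 ≤ 1 - Real.cos x := by linarith [Real.cos_le_one x]
    rw [lint_of_deriv (F := fun s => (1 - Real.cos x) * (-(s / x + 1 / x ^ 2) *
      Real.exp (-(x * s)))) (m := 0)]
    · congr 1
      simp
      ring
    · intro s _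
      have e1 : HasDerivAt (fun s : ℝ => -(s / x + 1 / x ^ 2)) (-(1 / x)) s :=
        (((hasDerivAt_id s).div_const x).add_const (1 / x ^ 2)).neg
      have e2 : HasDerivAt (fun s : ℝ => Real.exp (-(x * s))) (Real.exp (-(x * s)) * (-(x * 1))) s :=
        (((hasDerivAt_id s).const_mul x).neg).exp
      refine ((e1.mul e2).const_mul (1 - Real.cos x)).congr_deriv ?_
      field_simp
      ring
    · intro s hs
      have hs' : (0 : ℝ) < s := hs
      positivity
    · have e3 : Tendsto (fun s : ℝ => x * s) atTop atTop := tendsto_id.const_mul_atTop hx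
      have e4 := ((Real.tendsto_pow_mul_exp_neg_atTop_nhds_zero 1).comp e3).const_mul (1 / x ^ 2)
      have e5 := ((Real.tendsto_pow_mul_exp_neg_atTop_nhds_zero 0).comp e3).const_mul (1 / x ^ 2)
      have e6 := ((e4.add e5).neg).const_mul (1 - Real.cos x)
      simp only [mul_zero, add_zero, neg_zero] at e6
      refine e6.congr fun s => ?_
      simp only [Function.comp, pow_one, pow_zero]
      field_simp
  have h2 : ∀ s : ℝ, 0 < s →
      ∫⁻ x in Ioi (0 : ℝ), ENNReal.ofReal ((1 - Real.cos x) * (s * Real.exp (-(x * s)))) =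
        ENNReal.ofReal ((1 + s ^ 2)⁻¹) := by
    intro s hs
    have hs2 : (1 : ℝ) + s ^ 2 ≠ 0 := by positivity
    rw [lint_of_deriv (F := fun x => Real.exp (-(x * s)) *
      (-1 + s * (s * Real.cos x - Real.sin x) / (1 + s ^ 2))) (m := 0)]
    · congr 1
      simp
      field_simp
      ring
    · intro x _
      have e1 : HasDerivAt (fun x : ℝ => Real.exp (-(x * s))) (Real.exp (-(x * s)) * (-(1 * s))) x :=
        (((hasDerivAt_id x).mul_const s).neg).exp
      have e2 : HasDerivAt (fun x : ℝ => -1 + s * (s * Real.cos x - Real.sin x) / (1 + s ^ 2))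
          (s * (s * (-Real.sin x) - Real.cos x) / (1 + s ^ 2)) x :=
        ((((((Real.hasDerivAt_cos x).const_mul s).sub (Real.hasDerivAt_sin x)).const_mul s).div_const
          (1 + s ^ 2)).const_add (-1))
      refine (e1.mul e2).congr_deriv ?_
      field_simp
      ring
    · intro x _
      have hc : 0 ≤ 1 - Real.cos x := by linarith [Real.cos_le_one x]
      positivity
    · have e1 := exp_tendsto hs
      have e2 : Tendsto (fun x : ℝ => (1 + s * (s + 1) / (1 + s ^ 2)) * Real.exp (-(x * s))) atTop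
          (𝓝 0) := by
        have := e1.const_mul (1 + s * (s + 1) / (1 + s ^ 2))
        rwa [mul_zero] at this
      refine squeeze_zero_norm (fun x => ?_) e2
      rw [norm_mul, mul_comm, Real.norm_eq_abs, Real.norm_eq_abs, abs_of_pos (Real.exp_pos _)]
      gcongr
      have h3 : |s * (s * Real.cos x - Real.sin x) / (1 + s ^ 2)| ≤ s * (s + 1) / (1 + s ^ 2) := by
        rw [abs_div, abs_mul, abs_of_pos hs, abs_of_pos (show (0 : ℝ) < 1 + s ^ 2 by positivity)]
        gcongr
        calc |s * Real.cos x - Real.sin x| ≤ |s * Real.cos x| + |Real.sin x| := abs_sub _ _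
          _ ≤ s * 1 + 1 := by
            rw [abs_mul, abs_of_pos hs]
            gcongr
            · exact Real.abs_cos_le_one x
            · exact Real.abs_sin_le_one x
          _ = s + 1 := by ring
      calc |-1 + s * (s * Real.cos x - Real.sin x) / (1 + s ^ 2)| ≤
          |(-1 : ℝ)| + |s * (s * Real.cos x - Real.sin x) / (1 + s ^ 2)| := abs_add_le _ _
        _ ≤ _ := by
          rw [abs_neg, abs_one]
          linarith
  have key : ∫⁻ x in Ioi (0 : ℝ), ENNReal.ofReal ((1 - Real.cos x) / x ^ 2) =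
      ENNReal.ofReal (Real.pi / 2) := by
    calc ∫⁻ x in Ioi (0 : ℝ), ENNReal.ofReal ((1 - Real.cos x) / x ^ 2) =
        ∫⁻ x in Ioi (0 : ℝ), ∫⁻ s in Ioi (0 : ℝ),
          ENNReal.ofReal ((1 - Real.cos x) * (s * Real.exp (-(x * s)))) :=
          setLIntegral_congr_fun measurableSet_Ioi (fun x hx => (h1 x hx).symm)
      _ = ∫⁻ s in Ioi (0 : ℝ), ∫⁻ x in Ioi (0 : ℝ),
          ENNReal.ofReal ((1 - Real.cos x) * (s * Real.exp (-(x * s)))) := by
          apply lintegral_lintegral_swap
          apply Measurable.aemeasurable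
          fun_prop
      _ = ∫⁻ s in Ioi (0 : ℝ), ENNReal.ofReal ((1 + s ^ 2)⁻¹) :=
          setLIntegral_congr_fun measurableSet_Ioi (fun s hs => h2 s hs)
      _ = ENNReal.ofReal (∫ s in Ioi (0 : ℝ), (1 + s ^ 2)⁻¹) :=
          (ofReal_integral_eq_lintegral_ofReal integrable_inv_one_add_sq.integrableOn
            (ae_of_all _ fun s => by positivity)).symm
      _ = _ := by rw [integral_Ioi_inv_one_add_sq, Real.arctan_zero, sub_zero]
  constructor
  · refine ⟨hmeas.aestronglyMeasurable, ?_⟩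
    rw [hasFiniteIntegral_iff_ofReal (ae_of_all _ hf0), key]
    exact ENNReal.ofReal_lt_top
  · rw [integral_eq_lintegral_of_nonneg_ae (ae_of_all _ hf0) hmeas.aestronglyMeasurable, key,
      ENNReal.toReal_ofReal (by positivity)]

end Pool.Agent.P8H88.SB
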