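import Pool.Agent.P8H38.SB.Stm

set_option autoImplicit false

/-!
# Project SB (helper38), packages SUMM and LOW
-/

open Filter Topology MeasureTheory Set

namespace Pool.Agent.P8H88.SB

open Pool.Agent.P8H38.SB

theorem wt_nonneg {ι : Type} {g b : ι → ℝ} (hb : ∀ i, 0 ≤ b i) (i : ι) : 0 ≤ wt g b i :=
  div_nonneg (hb i) (by positivity)

theorem summable_NN {ι : Type} {g b : ι → ℝ} (hf : ∀ T : ℝ, {i | g i ≤ T}.Finite) (T : ℝ) :
    Summable fun i => if g i ≤ T then b i else 0 := by
  apply summable_of_hasFiniteSupport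
  refine (hf T).subset ?_
  intro i hi
  by_contra hn
  exact hi (if_neg hn)

theorem sum_le_NN {ι : Type} {g b : ι → ℝ} (hb : ∀ i, 0 ≤ b i)
    (hf : ∀ T : ℝ, {i | g i ≤ T}.Finite) (T : ℝ) (F : Finset ι) (hF : ∀ i ∈ F, g i ≤ T) :
    ∑ i ∈ F, b i ≤ NN g b T := by
  have h1 : ∑ i ∈ F, b i = ∑ i ∈ F, (if g i ≤ T then b i else 0) :=
    Finset.sum_congr rfl fun i hi => (if_pos (hF i hi)).symm
  rw [h1]
  refine (summable_NN hf T).sum_le_tsum F fun i _ => ?_
  split_ifs
  · exact hb i
  · exact le_rfl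

theorem summ : S_SUMM := by
  classical
  intro ι g b hg hb hf α C hα hα2 hN
  have hC : 0 ≤ C := by
    have h1 := hN 1 le_rfl
    rw [Real.one_rpow, mul_one] at h1
    refine le_trans ?_ h1
    unfold NN
    exact tsum_nonneg fun i => by
      split_ifs
      · exact hb i
      · exact le_rfl
  have hex : ∀ i, ∃ k : ℕ, g i ≤ 2 ^ k := fun i => by
    obtain ⟨k, hk⟩ := pow_unbounded_of_one_lt (g i) (one_lt_two)
    exact ⟨k, hk.le⟩
  set κ : ι → ℕ := fun i => Nat.find (hex i) with hκ
  have hκ1 : ∀ i, g i ≤ 2 ^ κ i := fun i => Nat.find_spec (hex i)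
  have hκ2 : ∀ i, wt g b i ≤ 4 / 4 ^ κ i * b i := by
    intro i
    unfold wt
    rw [div_mul_eq_mul_div, div_le_div_iff₀ (by positivity) (by positivity)]
    have h1 : (4 : ℝ) ^ κ i ≤ 4 * (1 / 4 + g i ^ 2) := by
      rcases Nat.eq_zero_or_pos (κ i) with h0 | h0
      · rw [h0, pow_zero]
        nlinarith [sq_nonneg (g i)]
      · have h2 : ¬ g i ≤ 2 ^ (κ i - 1) := Nat.find_min (hex i) (by
          show κ i - 1 < κ i
          omega)
        push Not at h2
        have h3 : (2 : ℝ) ^ κ i = 2 * 2 ^ (κ i - 1) := by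
          rw [← pow_succ']
          congr 1
          omega
        have h4 : (4 : ℝ) ^ κ i = (2 ^ κ i) ^ 2 := by
          rw [← pow_mul, mul_comm, pow_mul]
          norm_num
        rw [h4, h3]
        have h5 : (0 : ℝ) < 2 ^ (κ i - 1) := by positivity
        nlinarith
    nlinarith [hb i]
  set q : ℝ := (2 : ℝ) ^ (α - 2) with hq
  have hq0 : 0 < q := by positivity
  have hq1 : q < 1 := Real.rpow_lt_one_of_one_lt_of_neg one_lt_two (by linarith)
  refine summable_of_sum_le (c := 4 * C * (1 - q)⁻¹) (wt_nonneg hb) fun F => ?_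
  set K : ℕ := F.sup κ + 1 with hK
  have hmaps : ∀ i ∈ F, κ i ∈ Finset.range K := fun i hi => by
    rw [Finset.mem_range]
    exact Nat.lt_succ_of_le (Finset.le_sup hi)
  rw [← Finset.sum_fiberwise_of_maps_to hmaps]
  calc ∑ k ∈ Finset.range K, ∑ i ∈ F.filter (fun i => κ i = k), wt g b i ≤
      ∑ k ∈ Finset.range K, 4 * C * q ^ k := by
        refine Finset.sum_le_sum fun k _ => ?_
        calc ∑ i ∈ F.filter (fun i => κ i = k), wt g b i ≤
            ∑ i ∈ F.filter (fun i => κ i = k), 4 / 4 ^ k * b i := by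
              refine Finset.sum_le_sum fun i hi => ?_
              have := hκ2 i
              rwa [(Finset.mem_filter.1 hi).2] at this
          _ = 4 / 4 ^ k * ∑ i ∈ F.filter (fun i => κ i = k), b i := by rw [Finset.mul_sum]
          _ ≤ 4 / 4 ^ k * (C * ((2 : ℝ) ^ k) ^ α) := by
              gcongr
              refine (sum_le_NN hb hf (2 ^ k) _ fun i hi => ?_).trans
                (hN _ (one_le_pow₀ one_le_two))
              have := hκ1 i
              rwa [(Finset.mem_filter.1 hi).2] at this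
          _ = 4 * C * q ^ k := by
              have e1 : ((2 : ℝ) ^ k) ^ α = ((2 : ℝ) ^ α) ^ k := by
                rw [← Real.rpow_natCast, ← Real.rpow_natCast, ← Real.rpow_mul (by norm_num),
                  ← Real.rpow_mul (by norm_num), mul_comm]
              have e2 : q = (2 : ℝ) ^ α / 4 := by
                rw [hq, Real.rpow_sub (by norm_num)]
                norm_num
              rw [e1, e2, div_pow]
              ring
    _ = 4 * C * ∑ k ∈ Finset.range K, q ^ k := by rw [Finset.mul_sum]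
    _ ≤ 4 * C * (1 - q)⁻¹ := by
        gcongr
        rw [← tsum_geometric_of_lt_one hq0.le hq1]
        exact (summable_geometric_of_lt_one hq0.le hq1).sum_le_tsum _ fun k _ => by positivity

theorem cos_lower {x : ℝ} (h0 : 0 ≤ x) (h1 : x ≤ 1) : 2 / 5 * x ^ 2 ≤ 1 - Real.cos x := by
  have h2 := Real.cos_bound (x := x) (by rw [abs_of_nonneg h0]; exact h1)
  rw [abs_of_nonneg h0] at h2
  have h3 := (abs_le.1 h2).2
  have h4 : x ^ 4 ≤ x ^ 2 := pow_le_pow_of_le_one h0 h1 (by norm_num)
  nlinarith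

theorem low : S_LOW := by
  intro ι g b hA α C hα y hy hP
  have hw := wt_nonneg (g := g) hA.nonneg
  have hS0 : 0 ≤ ∑' i, wt g b i := tsum_nonneg hw
  refine ⟨5 / 4 * ∑' i, wt g b i + 25 / 8 * |C| * 4 ^ α, fun T hT => ?_⟩
  have hex : ∃ k : ℕ, T ≤ 2 ^ k := by
    obtain ⟨k, hk⟩ := pow_unbounded_of_one_lt T (one_lt_two)
    exact ⟨k, hk.le⟩
  set k := Nat.find hex with hk
  have hk1 : T ≤ 2 ^ k := Nat.find_spec hex
  have hk2 : (2 : ℝ) ^ k ≤ 2 * T := by
    rcases Nat.eq_zero_or_pos k with h0 | h0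
    · rw [h0, pow_zero]
      linarith
    · have h2 : ¬ T ≤ 2 ^ (k - 1) := Nat.find_min hex (by
        show k - 1 < k
        omega)
      push Not at h2
      have h3 : (2 : ℝ) ^ k = 2 * 2 ^ (k - 1) := by
        rw [← pow_succ']
        congr 1
        omega
      rw [h3]
      linarith
  obtain ⟨hy1, hy2⟩ := hy k
  set z := y k with hz
  have hk0 : (0 : ℝ) < 2 ^ k := by positivity
  have e1 : (1 / 2 : ℝ) ^ (k + 1) = 1 / (2 * 2 ^ k) := by
    rw [one_div_pow, pow_succ]
    ring
  rw [e1] at hy1 hy2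
  have hz0 : 0 < z := lt_of_lt_of_le (by positivity) hy1
  have hzT : T * z ≤ 1 := by
    calc T * z ≤ 2 ^ k * (2 * (1 / (2 * 2 ^ k))) := by gcongr
      _ = 1 := by field_simp
  have hz4 : 1 / (4 * T) ≤ z := by
    refine le_trans ?_ hy1
    rw [div_le_div_iff₀ (by positivity) (by positivity)]
    linarith
  -- the pointwise bound
  have hpt : ∀ i, (if g i ≤ T then b i else 0) ≤
      5 / 4 * wt g b i + 25 / 8 / z ^ 2 * ((1 - Real.cos (g i * z)) * wt g b i) := by
    intro i
    have hc : 0 ≤ 1 - Real.cos (g i * z) := by linarith [Real.cos_le_one (g i * z)]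
    have hwi := hw i
    have hg := hA.pos i
    have hbw : b i = (1 / 4 + g i ^ 2) * wt g b i := by
      unfold wt
      have : (1 / 4 + g i ^ 2 : ℝ) ≠ 0 := by positivity
      field_simp
    have hsecond : 0 ≤ 25 / 8 / z ^ 2 * ((1 - Real.cos (g i * z)) * wt g b i) := by positivity
    split_ifs with h
    · rcases le_or_gt (g i) 1 with h1 | h1
      · have : b i ≤ 5 / 4 * wt g b i := by
          rw [hbw]
          have h2 : g i ^ 2 ≤ 1 := pow_le_one₀ hg.le h1
          gcongr
          linarith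
        linarith
      · have h2 : 2 / 5 * (g i * z) ^ 2 ≤ 1 - Real.cos (g i * z) :=
          cos_lower (by positivity) (by
            calc g i * z ≤ T * z := by gcongr
              _ ≤ 1 := hzT)
        have h3 : b i ≤ 25 / 8 / z ^ 2 * ((1 - Real.cos (g i * z)) * wt g b i) := by
          calc b i = (1 / 4 + g i ^ 2) * wt g b i := hbw
            _ ≤ (5 / 4 * g i ^ 2) * wt g b i := by
              gcongr
              nlinarith
            _ = 25 / 8 / z ^ 2 * (2 / 5 * (g i * z) ^ 2 * wt g b i) := by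
              field_simp
              ring
            _ ≤ _ := by gcongr
        have h4 : 0 ≤ 5 / 4 * wt g b i := by positivity
        linarith
    · have h4 : 0 ≤ 5 / 4 * wt g b i := by positivity
      linarith
  have hs1 : Summable fun i => (1 - Real.cos (g i * z)) * wt g b i := by
    refine Summable.of_nonneg_of_le (fun i => ?_) (fun i => ?_) (hA.sum.mul_left 2)
    · exact mul_nonneg (by linarith [Real.cos_le_one (g i * z)]) (hw i)
    · have := hw i
      gcongr
      linarith [Real.neg_one_le_cos (g i * z)]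
  have hmain : NN g b T ≤ 5 / 4 * ∑' i, wt g b i + 25 / 8 / z ^ 2 * Ps g b z := by
    unfold NN Ps
    rw [← tsum_mul_left, ← tsum_mul_left, ← (hA.sum.mul_left _).tsum_add (hs1.mul_left _)]
    exact (summable_NN hA.fin T).tsum_le_tsum hpt ((hA.sum.mul_left _).add (hs1.mul_left _))
  have hT1 : 1 ≤ T ^ α := Real.one_le_rpow hT hα.le
  have hz5 : z ^ (2 - α) / z ^ 2 ≤ 4 ^ α * T ^ α := by
    have e2 : z ^ (2 - α) / z ^ 2 = (z⁻¹) ^ α := by
      rw [← Real.rpow_natCast z 2, ← Real.rpow_sub hz0, Real.inv_rpow hz0.le, ← Real.rpow_neg hz0.le]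
      congr 1
      push_cast
      ring
    rw [e2, ← Real.mul_rpow (by norm_num) (by linarith)]
    apply Real.rpow_le_rpow (by positivity) _ hα.le
    rw [inv_le_comm₀ hz0 (by positivity), ← one_div]
    exact hz4
  calc NN g b T ≤ 5 / 4 * ∑' i, wt g b i + 25 / 8 / z ^ 2 * Ps g b z := hmain
    _ ≤ 5 / 4 * ∑' i, wt g b i + 25 / 8 / z ^ 2 * (|C| * z ^ (2 - α)) := by
        gcongr
        refine (hP k).trans ?_
        gcongr
        exact le_abs_self C
    _ = 5 / 4 * ∑' i, wt g b i + 25 / 8 * |C| * (z ^ (2 - α) / z ^ 2) := by ring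
    _ ≤ 5 / 4 * (∑' i, wt g b i) * T ^ α + 25 / 8 * |C| * (4 ^ α * T ^ α) := by
        refine add_le_add ?_ (by gcongr)
        exact le_mul_of_one_le_right (by positivity) hT1
    _ = _ := by ring

end Pool.Agent.P8H88.SB
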